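import Pool.Agent.PQP.StmtsV
import Pool.Agent.FLX.Stmts

/-!
# PQP, row JEN: Jensen, local form
-/

set_option autoImplicit false

open scoped InnerProductSpace Topology ContDiff Manifold
open MeasureTheory Filter Set

noncomputable section

namespace Pool.Agent.PQP.H49

open Pool.Agent.PQP Pool.Agent.Helper42_Paneitz Pool.Agent.Helper82_Vir Pool.Agent.FLX

theorem cont_inner2 : Continuous fun z : S4 × S4 => ⟪(z.1 : E5), (z.2 : E5)⟫_ℝ :=
  (continuous_subtype_val.comp continuous_fst).inner (continuous_subtype_val.comp continuous_snd)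

theorem cont_inner1 (x : S4) : Continuous fun y : S4 => ⟪(x : E5), (y : E5)⟫_ℝ :=
  continuous_const.inner continuous_subtype_val

theorem meas_cap (x : S4) (u : ℝ) : MeasurableSet (cap x u) :=
  (isClosed_le (continuous_const.sub (cont_inner1 x)) continuous_const).measurableSet

theorem pot_le (hell : ∀ x, Integrable (ell x) sig) {f : S4 → ℝ} (hf : Dens f) {u : ℝ}
    (hu : 0 < u) (hu1 : u ≤ 1) (x : S4) :
    pot f x ≤ - Real.log u + ∫ y in cap x u, max (ell x y) 0 * f y ∂sig := by
  obtain ⟨hc, hpos, hint⟩ := hf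
  have hi : Integrable (fun y => ell x y * f y) sig := integrable_ell_mul (hell x) hc
  have hf' : Integrable f sig := integrable_cont hc
  have hm := meas_cap x u
  have hlog : 0 ≤ - Real.log u := by
    have := Real.log_nonpos hu.le hu1
    linarith
  have him : Integrable (fun y => max (ell x y) 0 * f y) sig := by
    have h := hi.pos_part
    refine h.congr (Eventually.of_forall fun y => ?_)
    show max (ell x y * f y) 0 = max (ell x y) 0 * f y
    rw [max_mul_of_nonneg _ _ (hpos y).le, zero_mul]
  unfold pot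
  rw [← integral_add_compl hm hi, add_comm]
  refine add_le_add ?_ ?_
  · have h1 : ∫ y in (cap x u)ᶜ, ell x y * f y ∂sig ≤
        ∫ y in (cap x u)ᶜ, (- Real.log u) * f y ∂sig := by
      refine setIntegral_mono_on hi.integrableOn (hf'.const_mul _).integrableOn hm.compl ?_
      intro y hy
      refine mul_le_mul_of_nonneg_right ?_ (hpos y).le
      have hy' : u < 1 - ⟪(x : E5), (y : E5)⟫_ℝ := not_le.mp hy
      show - Real.log _ ≤ - Real.log u
      exact neg_le_neg (Real.log_le_log hu hy'.le)
    refine h1.trans ?_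
    rw [integral_const_mul]
    have h2 : ∫ y in (cap x u)ᶜ, f y ∂sig ≤ 1 :=
      (setIntegral_le_integral hf' (Eventually.of_forall fun y => (hpos y).le)).trans hint.le
    nlinarith
  · refine setIntegral_mono_on hi.integrableOn him.integrableOn hm ?_
    intro y _
    exact mul_le_mul_of_nonneg_right (le_max_left _ _) (hpos y).le

theorem jen (hKER : KerStmt) (hJEG : JegStmt) (hPOT : PotStmt) : JenStmt := by
  intro p μ hp hμ hpμ
  obtain ⟨C, hC, hJ⟩ := hJEG p μ hp hμ hpμ
  obtain ⟨c₀, -, hP⟩ := hPOT
  refine ⟨C, hC, ?_⟩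
  intro f E u hf hE hu hu1 hmas
  have hell := hKER.1
  have hB : MeasurableSet {z : S4 × S4 | 1 - ⟪(z.1 : E5), (z.2 : E5)⟫_ℝ ≤ u} :=
    (isClosed_le (continuous_const.sub cont_inner2) continuous_const).measurableSet
  obtain ⟨hi, hle⟩ := hJ f E _ hf hE hB hmas
  have hcont : Continuous (pot f) := (hP f hf.1).1
  have h1 : ∫ x in E, Real.exp (4 * p * pot f x) ∂sig ≤
      ∫ x in E, u ^ (-(4 * p)) * Real.exp (4 * p * ∫ y in {y | (x, y) ∈
        {z : S4 × S4 | 1 - ⟪(z.1 : E5), (z.2 : E5)⟫_ℝ ≤ u}}, max (ell x y) 0 * f y ∂sig) ∂sig := by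
    refine setIntegral_mono_on
      (integrable_cont (Real.continuous_exp.comp (continuous_const.mul hcont))).integrableOn
      (hi.const_mul _) hE ?_
    intro x _
    have h2 := pot_le hell hf hu hu1 x
    have h3 : u ^ (-(4 * p)) = Real.exp (4 * p * (- Real.log u)) := by
      rw [Real.rpow_def_of_pos hu]
      congr 1
      ring
    rw [h3, ← Real.exp_add, ← mul_add]
    refine Real.exp_le_exp.mpr (mul_le_mul_of_nonneg_left h2 (by positivity))
  refine h1.trans ?_
  rw [integral_const_mul, mul_comm C]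
  exact mul_le_mul_of_nonneg_left hle (Real.rpow_nonneg hu.le _)

end Pool.Agent.PQP.H49
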