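import Pool.Agent.PQP.StmtsZ
import Pool.Agent.FLX.Stmts

/-!
# PQP, row PCZ
-/

set_option autoImplicit false

open scoped InnerProductSpace Topology ContDiff Manifold
open MeasureTheory Filter Set

noncomputable section

namespace Pool.Agent.PQP.H49

open Pool.Agent.PQP Pool.Agent.Helper42_Paneitz Pool.Agent.Helper82_Vir Pool.Agent.FLX

theorem pcz (hMOI : FLX.MoiStmt) (hFIN : FLX.FinStmt) : PczStmt := by
  intro ψ h b hψ hb hIE
  have hexp : Sm (fun x => Real.exp (ψ x)) := sm_comp hψ Real.contDiff_exp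
  have h6 : Sm (fun x => 6 * Real.exp (ψ x)) := hexp.smul 6
  obtain ⟨w, hw⟩ := hMOI b (fun x => 6 * Real.exp (ψ x)) h hb (continuous_of_sm h6) hIE
  obtain ⟨-, u, hu, hPu⟩ := hFIN _ w h6 hw
  have hus : Sm u := sm_of_contMDiff hu
  refine ⟨contMDiff_of_sm hexp, fun x => u x + Real.log 6 / 4,
    contMDiff_of_sm (hus.add (sm_const _)), fun x => ?_⟩
  rw [paneitz_add hus (sm_const _), paneitz_const, hPu x]
  have e : 4 * (u x + Real.log 6 / 4) = 4 * u x + Real.log 6 := by ring
  rw [e, Real.exp_add, Real.exp_log (by norm_num)]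
  ring

end Pool.Agent.PQP.H49
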