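import Pool.Agent.PQP.StmtsN

/-!
# PQP, row LN2: large powers, non-existence
-/

set_option autoImplicit false

open scoped InnerProductSpace Topology ContDiff Manifold
open MeasureTheory Filter Set

noncomputable section

namespace Pool.Agent.PQP.H49

open Pool.Agent.PQP Pool.Agent.Helper42_Paneitz Pool.Agent.Helper82_Vir Pool.Agent.FLX

theorem log_ev (Q : S4 → ℝ) (c : ℝ) {y : E5} (hy : y ≠ 0) :
    radialExt (fun x => c - Real.log (Q x)) =ᶠ[𝓝 y] fun z => c - Real.log (radialExt Q z) := by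
  filter_upwards [eventually_ne_zero hy] with z hz
  simp only [radialExt_apply _ hz]

theorem sm_log' {Q : S4 → ℝ} (hQ : Sm Q) (hpos : ∀ x, 0 < Q x) (c : ℝ) :
    Sm (fun x => c - Real.log (Q x)) := by
  intro y hy
  have hne : radialExt Q y ≠ 0 := by
    rw [radialExt_apply _ hy]
    exact (hpos _).ne'
  exact (contDiffAt_const.sub ((hQ y hy).log hne)).congr_of_eventuallyEq (log_ev Q c hy)

theorem dd_log' {Q : S4 → ℝ} (hQ : Sm Q) (hpos : ∀ x, 0 < Q x) (c : ℝ) (x : S4) (v : E5) :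
    dd Q x v = - (Q x * dd (fun x => c - Real.log (Q x)) x v) := by
  have hx := S4_ne_zero x
  have hne : radialExt Q (x : E5) ≠ 0 := by
    rw [radialExt_coe]
    exact (hpos _).ne'
  have h2 : HasFDerivAt (radialExt Q) (fderiv ℝ (radialExt Q) (x : E5)) (x : E5) :=
    (sm_diffAt hQ hx).hasFDerivAt
  have h3 := (h2.log hne).const_sub c
  have h4 : fderiv ℝ (radialExt fun x => c - Real.log (Q x)) (x : E5) =
      -((radialExt Q (x : E5))⁻¹ • fderiv ℝ (radialExt Q) (x : E5)) := by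
    rw [(log_ev Q c hx).fderiv_eq]
    exact h3.fderiv
  unfold dd
  rw [h4, radialExt_coe]
  show _ = - (Q x * (-((Q x)⁻¹ * fderiv ℝ (radialExt Q) (x : E5) v)))
  have := (hpos x).ne'
  field_simp

/-- the Hessian at a critical point -/
theorem dd_dd {f : S4 → ℝ} (hf : Sm f) {x : S4} (hc : ∀ v, dd f x v = 0) (v w : E5) :
    dd (fun z => dd f z w) x v = hess f x v w := by
  have hx := S4_ne_zero x
  have heq : radialExt (fun z => dd f z w) =ᶠ[𝓝 (x : E5)]
      (fun z : E5 => ‖z‖) * fun z => fderiv ℝ (radialExt f) z w := by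
    filter_upwards [eventually_ne_zero hx] with z hz
    exact radialExt_dd hf _ hz
  have hn : DifferentiableAt ℝ (fun y : E5 => ‖y‖) (x : E5) :=
    (contDiffAt_norm ℝ hx (n := 1)).differentiableAt (by simp)
  have hfd : ContDiffAt ℝ ∞ (fderiv ℝ (radialExt f)) (x : E5) :=
    (hf x hx).fderiv_right (by simp)
  have hfd1 : DifferentiableAt ℝ (fderiv ℝ (radialExt f)) (x : E5) :=
    hfd.differentiableAt (by simp)
  have hg : DifferentiableAt ℝ (fun z => fderiv ℝ (radialExt f) z w) (x : E5) :=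
    hfd1.clm_apply (differentiableAt_const _)
  have h1 := fderiv_mul hn hg
  show fderiv ℝ (radialExt fun z => dd f z w) (x : E5) v = _
  rw [heq.fderiv_eq, h1]
  have h2 : fderiv ℝ (fun z => fderiv ℝ (radialExt f) z w) (x : E5) v = hess f x v w := by
    have h3 := (hfd1.hasFDerivAt.clm_apply (hasFDerivAt_const w (x : E5))).fderiv
    unfold hess
    rw [h3]
    simp
  have h4 : fderiv ℝ (radialExt f) (x : E5) w = 0 := hc w
  simp only [_root_.add_apply, _root_.smul_apply, smul_eq_mul]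
  rw [h2, h4, S4_norm]
  ring

section
variable {Q ψ : S4 → ℝ} (hQ : Sm Q) (hψ : Sm ψ) (h : ∀ x v, dd Q x v = - (Q x * dd ψ x v))
include hQ hψ h

theorem dd_dd_rel {x : S4} (hc : ∀ v, dd ψ x v = 0) (v w : E5) :
    dd (fun z => dd Q z w) x v = - (Q x * dd (fun z => dd ψ z w) x v) := by
  have e : (fun z => dd Q z w) = fun z => - (Q z * dd ψ z w) := by
    funext z; exact h z w
  rw [e, dd_fun_neg (sm_mul hQ (sm_dd hψ w)), dd_mul hQ (sm_dd hψ w), hc w]
  ring

theorem hess_rel {x : S4} (hc : ∀ v, dd ψ x v = 0) (v w : E5) :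
    hess Q x v w = - (Q x * hess ψ x v w) := by
  have hc' : ∀ v, dd Q x v = 0 := fun v => by rw [h, hc]; ring
  rw [← dd_dd hQ hc', ← dd_dd hψ hc, dd_dd_rel hQ hψ h hc]

theorem lap_rel {x : S4} (hc : ∀ v, dd ψ x v = 0) :
    sphLaplacian Q x = - (Q x * sphLaplacian ψ x) := by
  rw [sphLaplacian_eq hQ, sphLaplacian_eq hψ, Finset.mul_sum, ← Finset.sum_neg_distrib]
  exact Finset.sum_congr rfl fun i _ => dd_dd_rel hQ hψ h hc _ _

end

theorem ln2 (hPNE : PneStmt) (hSOL : SolStmt) : Ln2Stmt := by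
  intro Q hQ hpos N hmax hnd hlap
  set ψ : S4 → ℝ := fun x => Real.log (Q N) - Real.log (Q x) with hψdef
  have hψ : Sm ψ := sm_log' hQ hpos _
  have hrel : ∀ x v, dd Q x v = - (Q x * dd ψ x v) := fun x v => dd_log' hQ hpos _ x v
  have hcrit : ∀ x v, dd Q x v = 0 → dd ψ x v = 0 := by
    intro x v hv
    rw [hrel] at hv
    have := (hpos x).ne'
    have h2 : Q x * dd ψ x v = 0 := by linarith
    exact (mul_eq_zero.mp h2).resolve_left this
  have hPsi : Psi ψ N := by
    refine ⟨hψ, by simp [hψdef], ?_, ⟨fun v => hcrit N v (hnd.1 v), ?_⟩, ?_⟩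
    · intro x hx
      have := Real.log_lt_log (hpos x) (hmax x hx)
      show 0 < Real.log (Q N) - Real.log (Q x)
      linarith
    · intro v hv hw
      refine hnd.2 v hv fun w hxw => ?_
      rw [hess_rel hQ hψ hrel (fun v => hcrit N v (hnd.1 v)), hw w hxw]
      ring
    · intro x hx hc
      have hcQ : Crit Q x := fun v => by rw [hrel, hc v]; ring
      have h1 := hlap x hcQ hx
      rw [lap_rel hQ hψ hrel hc] at h1
      have h2 := hpos x
      by_contra h3
      have h4 : 0 ≤ Q x * sphLaplacian ψ x := mul_nonneg h2.le (not_lt.mp h3)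
      linarith
  obtain ⟨T, hT⟩ := hPNE ψ N hPsi
  refine ⟨T, fun t ht hPan => ?_⟩
  obtain ⟨f, hf, A, hA, hfA⟩ := (hSOL (fun x => Q x ^ t) (fun x => Real.rpow_pos_of_pos (hpos x) t)).1 hPan
  refine hT t ht f ⟨hf, A * Real.exp (t * Real.log (Q N)), by positivity, fun x => ?_⟩
  rw [hfA x]
  have e : Q x ^ t = Real.exp (t * Real.log (Q N)) * Wt ψ t x := by
    unfold Wt
    rw [← Real.exp_add, Real.rpow_def_of_pos (hpos x)]
    congr 1
    simp only [hψdef]
    ring
  show A * Q x ^ t * Real.exp (4 * pot f x) = _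
  rw [e]
  ring

end Pool.Agent.PQP.H49
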